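import Pool.Agent.K1H35.JA.Stm

/-!
# Project JA (helper35, MP_a0040c_lc): piece MEM
-/

set_option autoImplicit false

namespace Pool.Agent.K1H92.JA

open Finset Pool.Agent.K1H35.JA

theorem cz_inj {k : ℕ} : Function.Injective (cz : (Fin k → ℕ) → Fin k → ℤ) := by
  intro x y h
  funext j
  have := congrFun h j
  simp only [cz] at this
  exact_mod_cast this

theorem cz_add {k : ℕ} (x y : Fin k → ℕ) : cz (x + y) = cz x + cz y := by
  funext j
  simp [cz]

theorem cz_smul {k : ℕ} (c : ℕ) (x : Fin k → ℕ) : cz (c • x) = (c : ℤ) • cz x := by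
  funext j
  simp [cz]

theorem cz_sum {k : ℕ} (Q : Finset (Fin k → ℕ)) (c : (Fin k → ℕ) → ℕ) :
    cz (∑ p ∈ Q, c p • p) = ∑ p ∈ Q, (c p : ℤ) • cz p := by
  funext j
  simp [cz, Finset.sum_apply]

theorem dot_bound {k M R : ℕ} (α : Fin k → ℤ) (hα : ∀ j, |α j| ≤ (M : ℤ)) (b : Fin k → ℕ)
    (hb : ∀ j, b j ≤ R) : |α ⬝ᵥ cz b| ≤ ((k * M * R : ℕ) : ℤ) := by
  calc |α ⬝ᵥ cz b| ≤ ∑ j, |α j * cz b j| := Finset.abs_sum_le_sum_abs _ _
    _ ≤ ∑ _j : Fin k, ((M : ℤ) * R) := by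
        refine Finset.sum_le_sum fun j _ => ?_
        rw [abs_mul]
        have h1 : |cz b j| ≤ (R : ℤ) := by
          have h2 : cz b j = (b j : ℤ) := rfl
          rw [h2, Nat.abs_cast]
          exact_mod_cast hb j
        exact mul_le_mul (hα j) h1 (abs_nonneg _) (Int.natCast_nonneg _)
    _ = ((k * M * R : ℕ) : ℤ) := by
        rw [Finset.sum_const, Finset.card_univ, Fintype.card_fin]
        push_cast
        simp only [nsmul_eq_mul]
        ring

/-- the signs do not change -/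
theorem sign_const {k M R C : ℕ} {x v b : Fin k → ℕ} {s : ℕ} (hb : ∀ j, b j ≤ R)
    (hC : k * M * R ≤ C) (hc : Comp k M C (cz x) (cz v)) (α : Fin k → ℤ)
    (hα : ∀ j, |α j| ≤ (M : ℤ)) :
    (α ⬝ᵥ (cz x - cz b) = 0 ↔ α ⬝ᵥ (cz x - cz b) + (s : ℤ) * (α ⬝ᵥ cz v) = 0) ∧
    (0 ≤ α ⬝ᵥ (cz x - cz b) ↔ 0 ≤ α ⬝ᵥ (cz x - cz b) + (s : ℤ) * (α ⬝ᵥ cz v)) := by
  have hbd := abs_le.1 (dot_bound α hα b hb)
  have hC' : ((k * M * R : ℕ) : ℤ) ≤ (C : ℤ) := by exact_mod_cast hC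
  have hs : (0 : ℤ) ≤ s := Int.natCast_nonneg _
  rw [dotProduct_sub]
  obtain ⟨h1, h2⟩ := hc α hα
  obtain ⟨-, h3⟩ := hc (-α) (fun j => by rw [Pi.neg_apply, abs_neg]; exact hα j)
  rw [neg_dotProduct, neg_dotProduct] at h3
  by_cases hx : |α ⬝ᵥ cz x| ≤ (C : ℤ)
  · rw [h1 hx, mul_zero, add_zero]
    exact ⟨Iff.rfl, Iff.rfl⟩
  · rw [abs_le, not_and_or, not_le, not_le] at hx
    rcases hx with hx | hx
    · have h4 : 0 ≤ -(α ⬝ᵥ cz v) := h3 (by linarith)
      have h5 : (s : ℤ) * (α ⬝ᵥ cz v) ≤ 0 := mul_nonpos_of_nonneg_of_nonpos hs (by linarith)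
      constructor <;> constructor <;> intro h <;> exfalso <;> linarith [hbd.1, hbd.2]
    · have h4 : 0 ≤ α ⬝ᵥ cz v := h2 hx
      have h5 : 0 ≤ (s : ℤ) * (α ⬝ᵥ cz v) := mul_nonneg hs h4
      have h6 : 0 < α ⬝ᵥ cz x - α ⬝ᵥ cz b := by linarith [hbd.1, hbd.2]
      refine ⟨⟨fun h => ?_, fun h => ?_⟩, ⟨fun _ => by linarith, fun _ => h6.le⟩⟩
      · exfalso; linarith
      · exfalso; linarith

theorem t_MEM (hF : S_FUN) : S_MEM := by
  classical
  intro k m R C D t Q b x v hm hQ hli hb hC hD hcomp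
  have hliP : LinearIndependent ℤ (fun p : (Q.image cz : Finset (Fin k → ℤ)) =>
      (p : Fin k → ℤ)) := by
    have h1 : LinearIndependent ℤ (fun p : (Set.range fun p : Q => cz (p : Fin k → ℕ)) =>
        (p : Fin k → ℤ)) := hli.linearIndepOn_id
    have h2 : ((Q.image cz : Finset (Fin k → ℤ)) : Set (Fin k → ℤ)) =
        Set.range fun p : Q => cz (p : Fin k → ℕ) := by
      ext z
      simp
    have h3 : LinearIndepOn ℤ id (Set.range fun p : Q => cz (p : Fin k → ℕ)) := h1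
    rw [← h2] at h3
    exact h3
  obtain ⟨Δ, a, Z, hΔ, hΔM, ha, hZ, hdual, hZ0, hsum⟩ := hF k m hm (Q.image cz) (by
    intro p hp j
    rw [Finset.mem_image] at hp
    obtain ⟨q, hq, rfl⟩ := hp
    have h1 : cz q j = (q j : ℤ) := rfl
    rw [h1, Nat.abs_cast]
    exact_mod_cast hQ q hq j) hliP
  have hcrit : ∀ X : Fin k → ℕ, (∃ c : (Fin k → ℕ) → ℕ, X = b + ∑ p ∈ Q, c p • p) ↔
      ((∀ ζ ∈ Z, ζ ⬝ᵥ (cz X - cz b) = 0) ∧ ∀ p ∈ Q, 0 ≤ a (cz p) ⬝ᵥ (cz X - cz b) ∧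
        Δ ∣ a (cz p) ⬝ᵥ (cz X - cz b)) := by
    intro X
    constructor
    · rintro ⟨c, rfl⟩
      have h1 : cz (b + ∑ p ∈ Q, c p • p) - cz b = ∑ p ∈ Q, (c p : ℤ) • cz p := by
        rw [cz_add, cz_sum, add_sub_cancel_left]
      rw [h1]
      constructor
      · intro ζ hζ
        rw [dotProduct_sum]
        refine Finset.sum_eq_zero fun p hp => ?_
        rw [dotProduct_smul, hZ0 ζ hζ (cz p) (Finset.mem_image_of_mem _ hp), smul_zero]
      · intro p hp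
        have h2 : a (cz p) ⬝ᵥ ∑ q ∈ Q, (c q : ℤ) • cz q = (c p : ℤ) * Δ := by
          rw [dotProduct_sum, Finset.sum_eq_single p]
          · rw [dotProduct_smul, hdual _ (Finset.mem_image_of_mem _ hp) _
              (Finset.mem_image_of_mem _ hp), if_pos rfl, smul_eq_mul]
          · intro q hq hne
            rw [dotProduct_smul, hdual _ (Finset.mem_image_of_mem _ hp) _
              (Finset.mem_image_of_mem _ hq), if_neg (fun h => hne (cz_inj h).symm), smul_zero]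
          · intro h
            exact absurd hp h
        rw [h2]
        exact ⟨mul_nonneg (Int.natCast_nonneg _) hΔ.le, Dvd.intro_left _ rfl⟩
    · rintro ⟨h1, h2⟩
      have h3 := hsum (cz X - cz b) h1
      rw [Finset.sum_image (fun p _ q _ h => cz_inj h)] at h3
      refine ⟨fun p => ((a (cz p) ⬝ᵥ (cz X - cz b)) / Δ).toNat, ?_⟩
      apply cz_inj
      rw [cz_add, cz_sum]
      have h4 : ∀ p ∈ Q, (((a (cz p) ⬝ᵥ (cz X - cz b)) / Δ).toNat : ℤ) • cz p =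
          ((a (cz p) ⬝ᵥ (cz X - cz b)) / Δ) • cz p := by
        intro p hp
        rw [Int.toNat_of_nonneg (Int.ediv_nonneg (h2 p hp).1 hΔ.le)]
      rw [Finset.sum_congr rfl h4]
      have h5 : Δ • (cz X - cz b) = Δ • ∑ p ∈ Q, ((a (cz p) ⬝ᵥ (cz X - cz b)) / Δ) • cz p := by
        rw [h3, Finset.smul_sum]
        refine Finset.sum_congr rfl fun p hp => ?_
        rw [smul_smul, Int.mul_ediv_cancel' (h2 p hp).2]
      have h6 : cz X - cz b = ∑ p ∈ Q, ((a (cz p) ⬝ᵥ (cz X - cz b)) / Δ) • cz p := by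
        funext j
        have h7 := congrFun h5 j
        simp only [Pi.smul_apply, smul_eq_mul] at h7
        exact mul_left_cancel₀ hΔ.ne' h7
      rw [← h6]
      abel
  rw [hcrit, hcrit]
  have hz : cz (x + (t * D) • v) - cz b = (cz x - cz b) + ((t * D : ℕ) : ℤ) • cz v := by
    rw [cz_add, cz_smul]
    abel
  have hdot : ∀ α : Fin k → ℤ, α ⬝ᵥ (cz (x + (t * D) • v) - cz b) =
      α ⬝ᵥ (cz x - cz b) + ((t * D : ℕ) : ℤ) * (α ⬝ᵥ cz v) := by
    intro α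
    rw [hz, dotProduct_add, dotProduct_smul, smul_eq_mul]
  have hΔD : Δ ∣ ((t * D : ℕ) : ℤ) := by
    have h1 : Δ.toNat ∣ D := hD Δ.toNat (by omega) (by omega)
    have h2 : (Δ.toNat : ℤ) = Δ := Int.toNat_of_nonneg hΔ.le
    rw [← h2]
    exact_mod_cast Dvd.dvd.mul_left h1 t
  refine and_congr ?_ ?_
  · refine forall_congr' fun ζ => forall_congr' fun hζ => ?_
    rw [hdot]
    exact (sign_const (s := t * D) hb hC hcomp ζ (hZ ζ hζ)).1
  · refine forall_congr' fun p => forall_congr' fun hp => ?_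
    rw [hdot]
    refine and_congr (sign_const (s := t * D) hb hC hcomp (a (cz p))
      (ha _ (Finset.mem_image_of_mem _ hp))).2 ?_
    exact (dvd_add_left (Dvd.dvd.mul_right hΔD _)).symm

end Pool.Agent.K1H92.JA
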