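import Pool.Agent.K1H30.JA.Stm2
import Pool.Agent.TH603.EL.Low

/-!
# Jacobians of curves of genus two: the lifts over the Hahn series (piece RESTH)
-/

set_option autoImplicit false

namespace Pool.Agent.K1H92.JA

open MvPolynomial Pool.Agent.TH603.EL Pool.Agent.K1H30.JA
open Pool.Agent.K1H30.SQ (P4 ev4)

section alg
variable {R S : Type} [CommRing R] [CommRing S]

theorem map_fS (φ : R →+* S) (t : R) : (fS t).map φ = fS (φ t) := by
  simp [fS]

theorem map_ge (φ : R →+* S) (f : Polynomial R) (i : Fin 6) :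
    MvPolynomial.map φ (ge f i) = ge (f.map φ) i := by
  have h2 : (C (φ 2) : P4 S) = C 2 := by rw [map_ofNat φ 2]
  fin_cases i <;> simp [ge, F0, h2]

theorem map_Vd (φ : R →+* S) (f : Polynomial R) (d : ℕ) {G : P4 R} (hG : G ∈ Vd f d) :
    MvPolynomial.map φ G ∈ Vd (f.map φ) d := by
  unfold Vd at hG ⊢
  induction hG using Submodule.span_induction with
  | mem x hx =>
    obtain ⟨k, hk, rfl⟩ := hx
    refine Submodule.subset_span ⟨k, hk, ?_⟩
    rw [map_prod]
    refine Finset.prod_congr rfl fun i _ => ?_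
    rw [map_pow, map_ge]
  | zero => rw [map_zero]; exact Submodule.zero_mem _
  | add x y _ _ hx hy => rw [map_add]; exact Submodule.add_mem _ hx hy
  | smul a x _ hx =>
    rw [MvPolynomial.smul_eq_C_mul, map_mul, MvPolynomial.map_C, ← MvPolynomial.smul_eq_C_mul]
    exact Submodule.smul_mem _ _ hx

end alg

section hahn
variable (F : Type) [Field F]

/-- the Hahn series without negative exponents -/
noncomputable def OO : Subring (HK F) where
  carrier := {c | Low c 0}
  mul_mem' := fun {a b} ha hb => by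
    have h := Low.mul ha hb
    rw [add_zero] at h
    exact h
  one_mem' := low_one
  add_mem' := fun {a b} ha hb => Low.add ha hb
  zero_mem' := low_zero 0
  neg_mem' := fun {a} ha => Low.neg ha

variable {F}

theorem inv_low : ∃ c : HK F, Low c 0 ∧ c * (1 - HahnSeries.single (1 : ℝ) (1 : F)) = 1 := by
  have hne : (1 - HahnSeries.single (1 : ℝ) (1 : F) : HK F) ≠ 0 := by
    intro h
    have h1 := congrArg (fun x : HK F => x.coeff 0) h
    simp only [HahnSeries.coeff_sub, HahnSeries.coeff_one, HahnSeries.coeff_zero] at h1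
    rw [HahnSeries.coeff_single_of_ne (by norm_num)] at h1
    simp at h1
  refine ⟨(1 - HahnSeries.single (1 : ℝ) (1 : F))⁻¹, ?_, inv_mul_cancel₀ hne⟩
  set c : HK F := (1 - HahnSeries.single (1 : ℝ) (1 : F))⁻¹ with hc
  have h1 : (1 - HahnSeries.single (1 : ℝ) (1 : F)) * c = 1 := mul_inv_cancel₀ hne
  have h2 : c = 1 + HahnSeries.single (1 : ℝ) (1 : F) * c := by
    rw [sub_mul, one_mul] at h1
    exact sub_eq_iff_eq_add.1 h1
  intro a ha
  by_contra hca
  have hc0 : c ≠ 0 := by
    intro h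
    apply hca
    rw [h]
    rfl
  have ho : c.order ≤ a := HahnSeries.order_le_of_coeff_ne_zero hca
  have h3 : c.coeff c.order ≠ 0 := fun h => hc0 (HahnSeries.coeff_order_eq_zero.1 h)
  apply h3
  have h4 := congrArg (fun x : HK F => x.coeff c.order) h2
  simp only [HahnSeries.coeff_add, HahnSeries.coeff_one] at h4
  rw [if_neg (lt_of_le_of_lt ho ha).ne, zero_add, HahnSeries.coeff_single_mul, one_mul] at h4
  rw [h4]
  exact HahnSeries.coeff_eq_zero_of_lt_order (by linarith)

theorem low_diff {R : Type} [CommRing R] (ψ : R →+* HR F) (hψ : ∀ c, Low (ψ c) 0)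
    (U U' : Fin 4 → HR F) (σ : ℝ) (hU : ∀ i, Low (U i) 0) (hU' : ∀ i, Low (U' i) 0)
    (hd : ∀ i, Low (U i - U' i) σ) (G : P4 R) :
    Low (eval₂ ψ U' G) 0 ∧ Low (eval₂ ψ U G - eval₂ ψ U' G) σ := by
  induction G using MvPolynomial.induction_on with
  | C a =>
    rw [eval₂_C, eval₂_C, sub_self]
    exact ⟨hψ a, low_zero σ⟩
  | add p q hp hq =>
    rw [eval₂_add, eval₂_add]
    refine ⟨hp.1.add hq.1, ?_⟩
    have h : eval₂ ψ U p + eval₂ ψ U q - (eval₂ ψ U' p + eval₂ ψ U' q)
        = (eval₂ ψ U p - eval₂ ψ U' p) + (eval₂ ψ U q - eval₂ ψ U' q) := by ring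
    rw [h]
    exact hp.2.add hq.2
  | mul_X p i hp =>
    rw [eval₂_mul, eval₂_mul, eval₂_X, eval₂_X]
    have h1 := hp.1.mul (hU' i)
    have h2 := hp.2.mul (hU i)
    have h3 := hp.1.mul (hd i)
    rw [add_zero] at h1 h2
    rw [zero_add] at h3
    refine ⟨h1, ?_⟩
    have h : eval₂ ψ U p * U i - eval₂ ψ U' p * U' i
        = (eval₂ ψ U p - eval₂ ψ U' p) * U i + eval₂ ψ U' p * (U i - U' i) := by ring
    rw [h]
    exact h2.add h3

theorem lift_one (l : ℕ) (t : OO F) (ht : (t : HK F) = HahnSeries.single (1 : ℝ) (1 : F))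
    (H0 : P4 (OO F)) (hH0 : H0 ∈ Vd (fS t) (2 * l)) (g : HR F → HR F → HR F)
    (hg : ∀ (φ : OO F →+* HR F) (x y : HR F), eval₂ φ ![x, y, -1, 0] H0 = g x y) :
    ∃ H ∈ Vd (fJ F) (2 * l), ∀ (U : Fin 4 → HR F) (σ : ℝ), 0 < σ →
      Low (U 0) 0 → Low (U 1) 0 → Low (U 2 + 1) σ → Low (U 3) σ →
        Low (ev4 U H - g (U 0) (U 1)) σ := by
  refine ⟨MvPolynomial.map (OO F).subtype H0, ?_, ?_⟩
  · have h := map_Vd (OO F).subtype (fS t) (2 * l) hH0
    rw [map_fS] at h
    have h1 : fS ((OO F).subtype t) = fJ F := by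
      unfold fJ
      rw [← ht]
      rfl
    rw [← h1]
    exact h
  · intro U σ hσ h0 h1 h2 h3
    have he : ev4 U (MvPolynomial.map (OO F).subtype H0)
        = eval₂ ((incl : HK F →+* HR F).comp (OO F).subtype) U H0 := by
      unfold ev4
      rw [coe_eval₂Hom, eval₂_map]
    rw [he, ← hg ((incl : HK F →+* HR F).comp (OO F).subtype) (U 0) (U 1)]
    have hm1 : Low (-1 : HR F) 0 := Low.neg low_one
    refine (low_diff ((incl : HK F →+* HR F).comp (OO F).subtype) (fun c => ?_) U
      ![U 0, U 1, -1, 0] σ ?_ ?_ ?_ H0).2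
    · exact Low.incl c.2
    · intro i
      fin_cases i
      · exact h0
      · exact h1
      · have h4 : Low (U 2 + 1 - 1) 0 := (h2.mono hσ.le).sub low_one
        rw [add_sub_cancel_right] at h4
        exact h4
      · exact h3.mono hσ.le
    · intro i
      fin_cases i
      · exact h0
      · exact h1
      · exact hm1
      · exact low_zero 0
    · intro i
      fin_cases i
      · show Low (U 0 - U 0) σ
        rw [sub_self]
        exact low_zero σ
      · show Low (U 1 - U 1) σ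
        rw [sub_self]
        exact low_zero σ
      · show Low (U 2 - (-1)) σ
        rw [sub_neg_eq_add]
        exact h2
      · show Low (U 3 - 0) σ
        rw [sub_zero]
        exact h3

end hahn

theorem t_RESTH : S_REST → S_RESTH := by
  intro hR F _ _ l
  obtain ⟨c, hc0, hc1⟩ := inv_low (F := F)
  let t : OO F := ⟨HahnSeries.single (1 : ℝ) (1 : F), fun a ha =>
    low_single (1 : ℝ) (1 : F) a (by linarith)⟩
  let r : OO F := ⟨c, hc0⟩
  have hr : r * (1 - t) = 1 := Subtype.ext hc1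
  obtain ⟨hA, hB⟩ := hR (OO F) t r hr l
  refine ⟨fun k hk => ?_, fun k hk => ?_⟩
  · obtain ⟨H0, hH0, hev⟩ := hA k hk
    exact lift_one l t rfl H0 hH0 (fun x _ => (1 + x) ^ (l + 1) * x ^ k)
      fun φ x y => hev (HR F) φ x y
  · obtain ⟨H0, hH0, hev⟩ := hB k hk
    exact lift_one l t rfl H0 hH0 (fun x y => (1 + x) ^ (l + 1) * x ^ k * y)
      fun φ x y => hev (HR F) φ x y

end Pool.Agent.K1H92.JA
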